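import Pool.Agent.Helper76_Leo3.Basic

/-!
# Leo3, module DSC: discriminant of the cubic field of a form
-/

set_option autoImplicit false

open Module Polynomial NumberField

namespace Pool.Agent.Leo3.H47

open Pool.Agent.Leo3

/-- Integral elements of degree three. -/
theorem int3 {K : Type} [Field K] (w : K) (p q r : ℤ)
    (h : w ^ 3 + p * w ^ 2 + q * w + r = 0) : IsIntegral ℤ w := by
  refine ⟨X ^ 3 + C p * X ^ 2 + C q * X + C r, by monicity!, ?_⟩
  simp only [eval₂_add, eval₂_mul, eval₂_X_pow, eval₂_X, eval₂_C]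
  simpa using h

/-- The basis of Delone and Faddeev. -/
def vv {K : Type} [Field K] (a b : ℤ) (ξ : K) : Fin 3 → K := ![1, a * ξ, a * ξ ^ 2 + 3 * b * ξ]

theorem vv_indep {K : Type} [Field K] [NumberField K] {a b c d : ℤ} (hirr : Irr a b c d) {ξ : K}
    (hx : a * ξ ^ 3 + 3 * b * ξ ^ 2 + 3 * c * ξ + d = 0) :
    LinearIndependent ℚ (vv a b ξ) := by
  have haQ : (a : ℚ) ≠ 0 := by exact_mod_cast H76.irr_ne hirr
  obtain ⟨hint, hdeg⟩ := H76.root_deg hirr hx
  rw [Fintype.linearIndependent_iff]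
  intro f hf
  rw [Fin.sum_univ_three] at hf
  have h0 : aeval ξ (C (f 2 * a) * X ^ 2 + C (f 1 * a + 3 * b * f 2) * X + C (f 0) : ℚ[X]) = 0 := by
    simp only [map_add, map_mul, aeval_C, map_pow, aeval_X, eq_ratCast, Rat.cast_add,
      Rat.cast_mul, Rat.cast_intCast, Rat.cast_ofNat]
    simp only [vv, Matrix.cons_val_zero, Matrix.cons_val_one, Matrix.cons_val, Algebra.smul_def,
      eq_ratCast] at hf
    linear_combination hf
  have h1 : (C (f 2 * a) * X ^ 2 + C (f 1 * a + 3 * b * f 2) * X + C (f 0) : ℚ[X]) = 0 := by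
    by_contra hne
    have h2 := natDegree_le_of_dvd (minpoly.dvd ℚ ξ h0) hne
    rw [hdeg] at h2
    have h3 : (C (f 2 * a) * X ^ 2 + C (f 1 * a + 3 * b * f 2) * X + C (f 0) : ℚ[X]).natDegree
        ≤ 2 := natDegree_quadratic_le
    omega
  have c0 := congrArg (fun p : ℚ[X] => p.coeff 0) h1
  have c1 := congrArg (fun p : ℚ[X] => p.coeff 1) h1
  have c2 := congrArg (fun p : ℚ[X] => p.coeff 2) h1
  simp only [coeff_add, coeff_C_mul, coeff_X_pow, coeff_X, coeff_C, coeff_zero] at c0 c1 c2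
  norm_num at c0 c1 c2
  have e2 : f 2 = 0 := by
    rcases c2 with h | h
    · exact h
    · exact absurd h (by exact_mod_cast H76.irr_ne hirr)
  have e1 : f 1 = 0 := by
    rw [e2, mul_zero, add_zero] at c1
    exact (mul_eq_zero.mp c1).resolve_right haQ
  intro i
  fin_cases i
  · exact c0
  · exact e1
  · exact e2

/-- The structure constants. -/
def st (a b c d : ℤ) : Fin 3 → Fin 3 → Fin 3 → ℚ :=
  ![![![1, 0, 0], ![0, 1, 0], ![0, 0, 1]],
    ![![0, 1, 0], ![0, -3 * b, a], ![-a * d, -3 * c, 0]],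
    ![![0, 0, 1], ![-a * d, -3 * c, 0], ![-3 * b * d, -d, -3 * c]]]

theorem vv_mul {K : Type} [Field K] [NumberField K] {a b c d : ℤ} {ξ : K}
    (hx : a * ξ ^ 3 + 3 * b * ξ ^ 2 + 3 * c * ξ + d = 0) (k j : Fin 3) :
    vv a b ξ k * vv a b ξ j = ∑ l, st a b c d k j l • vv a b ξ l := by
  rw [Fin.sum_univ_three]
  fin_cases k <;> fin_cases j <;>
    simp [vv, st, Algebra.smul_def] <;>
    first
      | ring1
      | linear_combination (a : K) * hx
      | linear_combination (a * ξ + 3 * b : K) * hx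

theorem tr_vv {K : Type} [Field K] [NumberField K] {a b c d : ℤ} (h3 : finrank ℚ K = 3)
    (hirr : Irr a b c d) {ξ : K}
    (hx : a * ξ ^ 3 + 3 * b * ξ ^ 2 + 3 * c * ξ + d = 0) (k : Fin 3) :
    Algebra.trace ℚ K (vv a b ξ k) = ∑ i, st a b c d k i i := by
  let B := basisOfLinearIndependentOfCardEqFinrank (vv_indep hirr hx) (by simp [h3])
  have hB : ⇑B = vv a b ξ := coe_basisOfLinearIndependentOfCardEqFinrank _ _
  rw [Algebra.trace_eq_matrix_trace B, Matrix.trace]
  refine Finset.sum_congr rfl fun i _ => ?_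
  rw [Matrix.diag_apply, Algebra.leftMulMatrix_eq_repr_mul, hB, vv_mul hx k i, ← hB]
  have := B.repr_sum_self (st a b c d k i)
  rw [this]

theorem discQ {K : Type} [Field K] [NumberField K] {a b c d : ℤ} {m : ℕ} (h3 : finrank ℚ K = 3)
    (hirr : Irr a b c d) (hM4 : hM a b c d = 4 * m) {ξ : K}
    (hx : a * ξ ^ 3 + 3 * b * ξ ^ 2 + 3 * c * ξ + d = 0) :
    Algebra.discr ℚ (vv a b ξ) = 108 * m ∧ (108 * m : ℚ) ≠ 0 := by
  have h1 : Algebra.discr ℚ (vv a b ξ) = 108 * m := by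
    rw [Algebra.discr_def]
    have h2 : Algebra.traceMatrix ℚ (vv a b ξ) =
        Matrix.of fun i j => ∑ l, st a b c d i j l * ∑ t, st a b c d l t t := by
      ext i j
      rw [Algebra.traceMatrix_apply, Algebra.traceForm_apply, Matrix.of_apply, vv_mul hx i j,
        map_sum]
      refine Finset.sum_congr rfl fun l _ => ?_
      rw [map_smul, tr_vv h3 hirr hx l, smul_eq_mul]
    rw [h2]
    have h5 : ((hM a b c d : ℤ) : ℚ) = ((4 * m : ℤ) : ℚ) := by rw [hM4]
    unfold hM at h5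
    push_cast at h5
    rw [Matrix.det_fin_three]
    simp [st, Fin.sum_univ_three]
    linear_combination 27 * h5
  refine ⟨h1, ?_⟩
  let B := basisOfLinearIndependentOfCardEqFinrank (vv_indep hirr hx) (by simp [h3])
  have hB : ⇑B = vv a b ξ := coe_basisOfLinearIndependentOfCardEqFinrank _ _
  have h2 := Algebra.discr_not_zero_of_basis ℚ B
  rw [hB, h1] at h2
  exact h2

/-- DSC -/
theorem dsc : DscStmt := by
  intro K _ _ ξ a b c d m h3 hirr hM4 hx
  have hI : ∀ i, IsIntegral ℤ (vv a b ξ i) := by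
    intro i
    fin_cases i
    · exact isIntegral_one
    · refine int3 _ (3 * b) (3 * a * c) (a ^ 2 * d) ?_
      simp only [vv]
      push_cast
      change (a * ξ) ^ 3 + 3 * b * (a * ξ) ^ 2 + 3 * a * c * (a * ξ) + a ^ 2 * d = 0
      linear_combination (a ^ 2 : K) * hx
    · refine int3 _ (6 * c) (9 * c ^ 2 + 3 * b * d) (9 * b * c * d - a * d ^ 2) ?_
      push_cast
      change (a * ξ ^ 2 + 3 * b * ξ) ^ 3 + 6 * c * (a * ξ ^ 2 + 3 * b * ξ) ^ 2 +
        (9 * c ^ 2 + 3 * b * d) * (a * ξ ^ 2 + 3 * b * ξ) + (9 * b * c * d - a * d ^ 2) = 0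
      linear_combination ((a * ξ ^ 2 + 3 * b * ξ + 3 * c) * (a * ξ + 3 * b) - a * d : K) * hx
  let v : Fin 3 → 𝓞 K := fun i => ⟨vv a b ξ i, hI i⟩
  have hfr : finrank ℤ (𝓞 K) = 3 := by rw [RingOfIntegers.rank, h3]
  let β : Basis (Fin 3) ℤ (𝓞 K) := finBasisOfFinrankEq ℤ (𝓞 K) hfr
  have hdisc : Algebra.discr ℤ v = (β.toMatrix v).det ^ 2 * NumberField.discr K := by
    have h1 := Algebra.discr_of_matrix_vecMul (A := ℤ) (β : Fin 3 → 𝓞 K) (β.toMatrix v)
    rw [β.toMatrix_map_vecMul v] at h1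
    rw [h1, NumberField.discr_eq_discr K β]
  obtain ⟨hq, hne⟩ := discQ h3 hirr hM4 hx
  have hQ : ((Algebra.discr ℤ v : ℤ) : ℚ) = 108 * m := by
    rw [← hq, Algebra.discr_def, Algebra.discr_def]
    have h1 : ((Algebra.traceMatrix ℤ v).det : ℚ) =
        ((Algebra.traceMatrix ℤ v).map (Int.cast : ℤ → ℚ)).det := by
      exact (Int.castRingHom ℚ).map_det _
    have h2 : (Algebra.traceMatrix ℤ v).map (Int.cast : ℤ → ℚ) =
        Algebra.traceMatrix ℚ (vv a b ξ) := by
      ext i j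
      rw [Matrix.map_apply, Algebra.traceMatrix_apply, Algebra.traceForm_apply,
        Algebra.coe_trace_int, Algebra.traceMatrix_apply, Algebra.traceForm_apply]
      rfl
    rw [h1, h2]
  refine ⟨(β.toMatrix v).det, ?_, ?_⟩
  · intro h0
    rw [hdisc, h0] at hQ
    apply hne
    rw [← hQ]
    push_cast
    ring
  · rw [hdisc] at hQ
    have h5 : (((β.toMatrix v).det ^ 2 * NumberField.discr K : ℤ) : ℚ) =
        ((108 * m : ℤ) : ℚ) := by
      rw [hQ]
      push_cast
      ring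
    have h6 := Int.cast_injective h5
    rw [mul_comm]
    exact h6

end Pool.Agent.Leo3.H47
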